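import Pool.Agent.X297.LO.Stm

/-!
# The measure theoretic reduction
-/

set_option autoImplicit false

namespace Pool.Agent.X40.LO

open MeasureTheory Pool.Agent.X297.LO

/-- the product of three uniform measures -/
lemma pi_uniform {Ω : Type} [Fintype Ω] [MeasurableSpace Ω] [MeasurableSingletonClass Ω]
    (P : (Fin 3 → Ω) → Prop) :
    Measure.pi (fun _ : Fin 3 => ((Fintype.card Ω : ENNReal)⁻¹) • (Measure.count : Measure Ω)) {p | P p} =
      (Nat.card {p : Fin 3 → Ω // P p} : ENNReal) * ((Fintype.card Ω : ENNReal)⁻¹) ^ 3 := by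
  classical
  rcases isEmpty_or_nonempty Ω with hΩ | hΩ
  · have h1 : {p : Fin 3 → Ω | P p} = ∅ := by
      ext p
      exact hΩ.elim (p 0)
    have h2 : IsEmpty {p : Fin 3 → Ω // P p} := ⟨fun p => hΩ.elim (p.1 0)⟩
    rw [h1, measure_empty, Nat.card_of_isEmpty]
    simp
  have hfin : ∀ _ : Fin 3, IsFiniteMeasure (((Fintype.card Ω : ENNReal)⁻¹) • (Measure.count : Measure Ω)) := by
    intro _
    constructor
    rw [Measure.smul_apply, smul_eq_mul]
    apply ENNReal.mul_lt_top
    · rw [ENNReal.inv_lt_top]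
      exact_mod_cast Fintype.card_pos
    · exact measure_lt_top _ _
  have h1 : {p : Fin 3 → Ω | P p} = ((Finset.univ.filter P : Finset (Fin 3 → Ω)) : Set (Fin 3 → Ω)) := by
    ext p
    simp
  rw [h1, ← sum_measure_singleton]
  have h2 : ∀ p : Fin 3 → Ω,
      Measure.pi (fun _ : Fin 3 => ((Fintype.card Ω : ENNReal)⁻¹) • (Measure.count : Measure Ω)) {p} =
        ((Fintype.card Ω : ENNReal)⁻¹) ^ 3 := by
    intro p
    rw [Measure.pi_singleton]
    simp
  rw [Finset.sum_congr rfl (fun p _ => h2 p), Finset.sum_const, nsmul_eq_mul, Nat.card_eq_fintype_card,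
    Fintype.card_subtype]

/-- triples as functions on `Fin 3` -/
lemma card_fin3 {Ω : Type} (P : Ω → Ω → Ω → Prop) :
    Nat.card {p : Fin 3 → Ω // P (p 0) (p 1) (p 2)} =
      Nat.card {p : Ω × Ω × Ω // P p.1 p.2.1 p.2.2} := by
  apply Nat.card_congr
  exact
    { toFun := fun p => ⟨(p.1 0, p.1 1, p.1 2), p.2⟩
      invFun := fun p => ⟨![p.1.1, p.1.2.1, p.1.2.2], p.2⟩
      left_inv := by
        intro p
        apply Subtype.ext
        funext i
        fin_cases i <;> rfl
      right_inv := by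
        intro p
        rfl }

lemma cnt_neg {Ω G : Type} [Fintype Ω] [AddCommGroup G] (g : Ω → G) (a b c : ℤ) (k : G) :
    cnt g (-a) (-b) (-c) k = cnt g a b c (-k) := by
  unfold cnt
  apply Nat.card_congr
  apply Equiv.subtypeEquivRight
  intro p
  rw [neg_smul, neg_smul, neg_smul, ← neg_add, ← neg_add, neg_eq_iff_eq_neg]

lemma cnt_swap12 {Ω G : Type} [Fintype Ω] [AddCommGroup G] (g : Ω → G) (a b c : ℤ) (k : G) :
    cnt g a b c k = cnt g b a c k := by
  unfold cnt
  apply Nat.card_congr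
  refine Equiv.subtypeEquiv
    { toFun := fun p => (p.2.1, p.1, p.2.2), invFun := fun p => (p.2.1, p.1, p.2.2),
      left_inv := fun p => rfl, right_inv := fun p => rfl } ?_
  intro p
  show _ ↔ b • g p.2.1 + a • g p.1 + c • g p.2.2 = k
  rw [add_comm (b • g p.2.1)]

lemma cnt_swap23 {Ω G : Type} [Fintype Ω] [AddCommGroup G] (g : Ω → G) (a b c : ℤ) (k : G) :
    cnt g a b c k = cnt g a c b k := by
  unfold cnt
  apply Nat.card_congr
  refine Equiv.subtypeEquiv
    { toFun := fun p => (p.1, p.2.2, p.2.1), invFun := fun p => (p.1, p.2.2, p.2.1),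
      left_inv := fun p => rfl, right_inv := fun p => rfl } ?_
  intro p
  show _ ↔ a • g p.1 + c • g p.2.2 + b • g p.2.1 = k
  rw [add_right_comm]

lemma cnt_signs {Ω G : Type} [Fintype Ω] [AddCommGroup G] (g : Ω → G) (A : ℕ)
    (h1 : ∀ k, cnt g 1 1 1 k < A) (h2 : ∀ k, cnt g 1 (-1) 1 k < A)
    (u v w : ℤ) (hu : u = 1 ∨ u = -1) (hv : v = 1 ∨ v = -1) (hw : w = 1 ∨ w = -1) (k : G) :
    cnt g u v w k < A := by
  have h3 : ∀ k, cnt g 1 1 (-1) k < A := by
    intro k; rw [cnt_swap23]; exact h2 k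
  have h4 : ∀ k, cnt g (-1) 1 1 k < A := by
    intro k; rw [cnt_swap12]; exact h2 k
  rcases hu with rfl | rfl <;> rcases hv with rfl | rfl <;> rcases hw with rfl | rfl
  · exact h1 k
  · exact h3 k
  · exact h2 k
  · have := cnt_neg g (-1) 1 1 k
    rw [neg_neg] at this
    rw [this]; exact h4 _
  · exact h4 k
  · have := cnt_neg g 1 (-1) 1 k
    rw [neg_neg] at this
    rw [this]; exact h2 _
  · have := cnt_neg g 1 1 (-1) k
    rw [neg_neg] at this
    rw [this]; exact h3 _
  · rw [cnt_neg g 1 1 1 k]; exact h1 _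

theorem t_MEAS : S_MEAS := by
  classical
  rintro ⟨ι, Ω, _, _, _, g, x, h1, h2⟩ H
  let mΩ : MeasurableSpace Ω := ⊤
  have hms : MeasurableSingletonClass Ω := ⟨fun _ => trivial⟩
  let e : ι ≃ Fin (Fintype.card ι) := Fintype.equivFin ι
  let G : Ω → Fin (Fintype.card ι) → ℤ := fun p j => g p (e.symm j)
  let U : Measure Ω := ((Fintype.card Ω : ENNReal)⁻¹) • (Measure.count : Measure Ω)
  have hc0 : (Fintype.card Ω : ENNReal) ≠ 0 := by exact_mod_cast Fintype.card_ne_zero
  have hct : (Fintype.card Ω : ENNReal) ≠ ⊤ := ENNReal.natCast_ne_top _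
  have hU : IsProbabilityMeasure U := by
    constructor
    show (((Fintype.card Ω : ENNReal)⁻¹) • (Measure.count : Measure Ω)) Set.univ = 1
    rw [Measure.smul_apply, smul_eq_mul, Measure.count_apply MeasurableSet.univ]
    rw [Set.encard_univ, ENat.card_eq_coe_fintype_card]
    exact ENNReal.inv_mul_cancel hc0 hct
  have hG : Measurable G := measurable_from_top
  have hμ : IsProbabilityMeasure (U.map G) := Measure.isProbabilityMeasure_map hG.aemeasurable
  -- measures of events
  have key : ∀ P : (Fin 3 → Fin (Fintype.card ι) → ℤ) → Prop,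
      Measure.pi (fun _ : Fin 3 => U.map G) {ω | P ω} =
        (Nat.card {p : Fin 3 → Ω // P (fun i => G (p i))} : ENNReal) * ((Fintype.card Ω : ENNReal)⁻¹) ^ 3 := by
    intro P
    have e1 := Measure.pi_map_pi (μ := fun _ : Fin 3 => U) (f := fun _ : Fin 3 => G)
      (fun _ => hG.aemeasurable)
    rw [← e1, Measure.map_apply]
    · exact pi_uniform (fun p : Fin 3 → Ω => P (fun i => G (p i)))
    · exact measurable_pi_lambda _ (fun i => hG.comp (measurable_pi_apply i))
    · exact (Set.to_countable _).measurableSet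
  obtain ⟨w, hw, hw2⟩ := H 3 (Fintype.card ι) (U.map G)
  have hA := hw2 ![1, -1, 2] (by intro i; fin_cases i <;> norm_num) (fun j => ((x (e.symm j) : ℤ) : ℝ))
  rw [key (fun ω => ∑ i, (![1, -1, 2] : Fin 3 → ℝ) i • (fun j => ((ω i j : ℤ) : ℝ)) =
    fun j => ((x (e.symm j) : ℤ) : ℝ))] at hA
  have c1 : Nat.card {p : Fin 3 → Ω // ∑ i, (![1, -1, 2] : Fin 3 → ℝ) i • (fun j => ((G (p i) j : ℤ) : ℝ)) =
      fun j => ((x (e.symm j) : ℤ) : ℝ)} = cnt g 1 (-1) 2 x := by
    unfold cnt
    rw [← card_fin3 (fun a b c => (1 : ℤ) • g a + (-1 : ℤ) • g b + (2 : ℤ) • g c = x)]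
    apply Nat.card_congr
    apply Equiv.subtypeEquivRight
    intro p
    rw [Fin.sum_univ_three, funext_iff, funext_iff]
    constructor
    · intro h i
      have := h (e i)
      simp only [Pi.add_apply, Pi.smul_apply, smul_eq_mul, G, Equiv.symm_apply_apply, Matrix.cons_val] at this ⊢
      exact_mod_cast this
    · intro h j
      have := h (e.symm j)
      simp only [Pi.add_apply, Pi.smul_apply, smul_eq_mul, G, Matrix.cons_val] at this ⊢
      exact_mod_cast this
  rw [c1] at hA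
  have c2 : ∀ k : Fin (Fintype.card ι) → ℤ,
      Measure.pi (fun _ : Fin 3 => U.map G) {ω : Fin 3 → Fin (Fintype.card ι) → ℤ | ∑ i, w i • ω i = k} ≤
        ((cnt g 1 (-1) 2 x - 1 : ℕ) : ENNReal) * ((Fintype.card Ω : ENNReal)⁻¹) ^ 3 := by
    intro k
    rw [key (fun ω => ∑ i, w i • ω i = k)]
    have c3 : Nat.card {p : Fin 3 → Ω // ∑ i, w i • G (p i) = k} =
        cnt g (w 0) (w 1) (w 2) (fun i => k (e i)) := by
      unfold cnt
      rw [← card_fin3 (fun a b c => (w 0) • g a + (w 1) • g b + (w 2) • g c = fun i => k (e i))]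
      apply Nat.card_congr
      apply Equiv.subtypeEquivRight
      intro p
      rw [Fin.sum_univ_three, funext_iff, funext_iff]
      constructor
      · intro h i
        have := h (e i)
        simp only [Pi.add_apply, Pi.smul_apply, smul_eq_mul, G, Equiv.symm_apply_apply] at this ⊢
        exact this
      · intro h j
        have := h (e.symm j)
        simp only [Pi.add_apply, Pi.smul_apply, smul_eq_mul, G, Equiv.apply_symm_apply] at this ⊢
        exact this
    rw [c3]
    have c4 := cnt_signs g (cnt g 1 (-1) 2 x) h1 h2 (w 0) (w 1) (w 2) (hw 0) (hw 1) (hw 2) (fun i => k (e i))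
    gcongr
    omega
  have hB := hA.trans (iSup_le c2)
  have hp0 : ((Fintype.card Ω : ENNReal)⁻¹) ^ 3 ≠ 0 := pow_ne_zero _ (ENNReal.inv_ne_zero.mpr hct)
  have hpt : ((Fintype.card Ω : ENNReal)⁻¹) ^ 3 ≠ ⊤ := ENNReal.pow_ne_top (ENNReal.inv_ne_top.mpr hc0)
  rw [ENNReal.mul_le_mul_iff_left hp0 hpt] at hB
  have hC : cnt g 1 (-1) 2 x ≤ cnt g 1 (-1) 2 x - 1 := by exact_mod_cast hB
  have := h2 x
  omega

end Pool.Agent.X40.LO
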