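import Pool.Agent.X297.LO.Stm

/-!
# The lower bound for `a - b + 2c = 2m + e`
-/

set_option autoImplicit false

namespace Pool.Agent.X40.LO

open Pool.Agent.X297.LO

lemma sum_abs (m : ℕ) : ∑ c ∈ Finset.range (2 * m), |(m : ℤ) - c| = (m : ℤ) ^ 2 := by
  have h1 : ∑ c ∈ Finset.range (m + m), |(m : ℤ) - c| =
      ∑ c ∈ Finset.range m, |(m : ℤ) - c| + ∑ c ∈ Finset.range m, |(m : ℤ) - ((m + c : ℕ) : ℤ)| :=
    Finset.sum_range_add (fun c : ℕ => |(m : ℤ) - c|) m m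
  rw [two_mul, h1, ← Finset.sum_add_distrib]
  have h2 : ∀ c ∈ Finset.range m, |(m : ℤ) - c| + |(m : ℤ) - ((m + c : ℕ) : ℤ)| = m := by
    intro c hc
    have := Finset.mem_range.mp hc
    rw [abs_of_nonneg (by omega), abs_of_nonpos (by push_cast; omega)]
    push_cast
    ring
  rw [Finset.sum_congr rfl h2, Finset.sum_const, Finset.card_range, nsmul_eq_mul]
  ring

theorem t_ZLO : S_ZLO := by
  intro m E e he
  have hcard : ∑ c : Fin (2 * m), (2 * m - (2 * (m : ℤ) + e - 2 * ((c : ℕ) : ℤ)).natAbs) ≤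
      Nat.card {p : Fin (2 * m) × Fin (2 * m) × Fin (2 * m) //
        ((p.1 : ℕ) : ℤ) - ((p.2.1 : ℕ) : ℤ) + 2 * ((p.2.2 : ℕ) : ℤ) = 2 * m + e} := by
    have h0 : ∑ c : Fin (2 * m), (2 * m - (2 * (m : ℤ) + e - 2 * ((c : ℕ) : ℤ)).natAbs) =
        Nat.card (Σ c : Fin (2 * m), Fin (2 * m - (2 * (m : ℤ) + e - 2 * ((c : ℕ) : ℤ)).natAbs)) := by
      rw [Nat.card_eq_fintype_card, Fintype.card_sigma]
      simp only [Fintype.card_fin]
    rw [h0]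
    let F : (Σ c : Fin (2 * m), Fin (2 * m - (2 * (m : ℤ) + e - 2 * ((c : ℕ) : ℤ)).natAbs)) →
        {p : Fin (2 * m) × Fin (2 * m) × Fin (2 * m) //
        ((p.1 : ℕ) : ℤ) - ((p.2.1 : ℕ) : ℤ) + 2 * ((p.2.2 : ℕ) : ℤ) = 2 * m + e} :=
      fun q => ⟨(⟨q.2.1 + (2 * (m : ℤ) + e - 2 * ((q.1 : ℕ) : ℤ)).toNat, by
          have := q.2.2
          omega⟩,
        ⟨q.2.1 + (-(2 * (m : ℤ) + e - 2 * ((q.1 : ℕ) : ℤ))).toNat, by
          have := q.2.2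
          omega⟩, q.1), by
          simp only
          push_cast
          omega⟩
    apply Nat.card_le_card_of_injective F
    rintro ⟨c, i⟩ ⟨c', i'⟩ h
    have h1 := congrArg Subtype.val h
    have h2 : c = c' := congrArg (fun p => p.2.2) h1
    subst h2
    have h3 : (i : ℕ) + (2 * (m : ℤ) + e - 2 * ((c : ℕ) : ℤ)).toNat =
        (i' : ℕ) + (2 * (m : ℤ) + e - 2 * ((c : ℕ) : ℤ)).toNat := congrArg (fun p => (p.1 : ℕ)) h1
    have h4 : i = i' := Fin.ext (by omega)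
    rw [h4]
  have hcard' : ((∑ c : Fin (2 * m), (2 * m - (2 * (m : ℤ) + e - 2 * ((c : ℕ) : ℤ)).natAbs) : ℕ) : ℤ) ≤
      (Nat.card {p : Fin (2 * m) × Fin (2 * m) × Fin (2 * m) //
        ((p.1 : ℕ) : ℤ) - ((p.2.1 : ℕ) : ℤ) + 2 * ((p.2.2 : ℕ) : ℤ) = 2 * m + e} : ℤ) := by
    exact_mod_cast hcard
  refine le_trans ?_ hcard'
  rw [Nat.cast_sum]
  have h5 : ∑ c : Fin (2 * m), (2 * (m : ℤ) - E - 2 * |(m : ℤ) - ((c : ℕ) : ℤ)|) ≤
      ∑ c : Fin (2 * m), ((2 * m - (2 * (m : ℤ) + e - 2 * ((c : ℕ) : ℤ)).natAbs : ℕ) : ℤ) := by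
    apply Finset.sum_le_sum
    intro c _
    have h6 := abs_le.mp he
    rcases abs_cases ((m : ℤ) - ((c : ℕ) : ℤ)) with ⟨h7, _⟩ | ⟨h7, _⟩ <;> rw [h7] <;> omega
  refine le_trans ?_ h5
  rw [Fin.sum_univ_eq_sum_range (fun c => 2 * (m : ℤ) - E - 2 * |(m : ℤ) - (c : ℤ)|) (2 * m),
    Finset.sum_sub_distrib, ← Finset.mul_sum, sum_abs, Finset.sum_const, Finset.card_range, nsmul_eq_mul]
  push_cast
  have hE : (0 : ℤ) ≤ E := by positivity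
  have hm : (0 : ℤ) ≤ m := by positivity
  nlinarith [mul_nonneg hm hE]

end Pool.Agent.X40.LO
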